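import Pool.Agent.R788.MF.Bouquet

/-!
# MP_988b7a_gt: stabilisers of maps to a bouquet need not have finite homological type

The surface `Sig` is the closed annulus `1/100 ≤ |w| ≤ 100` without the open discs of radius `1/10`
about `3` and `1/3` (a sphere with four holes); the marked points are `1/100`, `100`, `3 - 1/10` and
`1/3 + 1/10`, one on each boundary circle. The map `angleB r` is `w ↦ w / |w|` followed by the
inclusion of the first circle of the bouquet of `r + 1` circles. The first homology of its
stabiliser in the mapping class group is not finitely generated.
-/

set_option autoImplicit false

namespace Pool.Agent.Results.MP_988b7a_gt.NotFiniteType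

open Pool.Agent.R788.MF

/-- For every bouquet of at least one circle, the stabiliser `MCGf f` of the map `f = angleB r`
(which is the stabiliser of the homotopy class of `f` relative to the marked points) has first
integral homology that is not finitely generated, and so it is not of finite homological type. -/
theorem result (r : ℕ) :
    IsStabilizerOfClass (angleB r) marks (MCGf (angleB r) marks marks_subset) ∧
    ¬ FirstHomologyFG (MCGf (angleB r) marks marks_subset) ∧
    ¬ HasFiniteHomologicalType (MCGf (angleB r) marks marks_subset) := by
  have h1 : ¬ FirstHomologyFG (MCGf (angleB r) marks marks_subset) := by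
    rw [MCGf_angleB]
    exact not_finite_H1
  refine ⟨mk_mem_MCGf (angleB r) marks marks_subset, h1, fun h => h1 (h.2 _ ?_ 1)⟩
  exact inferInstanceAs (Module.Finite ℤ ℤ)

end Pool.Agent.Results.MP_988b7a_gt.NotFiniteType
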